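import Mathlib

set_option autoImplicit false

namespace Pool.Agent.Results.MP_695dce_co.Three

open Finset Filter Topology

/-- the closed axis-parallel cube with lowest corner c.1 and side length c.2 -/
def cube (c : (Fin 3 → ℝ) × ℝ) : Set (Fin 3 → ℝ) := {x | ∀ t, c.1 t ≤ x t ∧ x t ≤ c.1 t + c.2}

/-- T is a tiling of the unit cube -/
def IsTiling (T : Finset ((Fin 3 → ℝ) × ℝ)) : Prop :=
  (∀ c ∈ T, 0 < c.2) ∧
    (∀ c ∈ T, ∀ c' ∈ T, c ≠ c' → Disjoint (interior (cube c)) (interior (cube c'))) ∧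
    (⋃ c ∈ T, cube c) = {x | ∀ t, 0 ≤ x t ∧ x t ≤ 1}

/-- half-open cube -/
def H (c : (Fin 3 → ℝ) × ℝ) : Set (Fin 3 → ℝ) := {x | ∀ t, c.1 t ≤ x t ∧ x t < c.1 t + c.2}

/-- partition of X into half-open cubes -/
def Part (T : Finset ((Fin 3 → ℝ) × ℝ)) (X : Set (Fin 3 → ℝ)) : Prop :=
  (∀ c ∈ T, 0 < c.2) ∧ (∀ c ∈ T, ∀ c' ∈ T, c ≠ c' → Disjoint (H c) (H c')) ∧
    ∀ x, x ∈ X ↔ ∃ c ∈ T, x ∈ H c

lemma H_pi (c : (Fin 3 → ℝ) × ℝ) : H c = Set.pi Set.univ (fun t => Set.Ico (c.1 t) (c.1 t + c.2)) := by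
  ext x; simp [H]

lemma cube_pi (c : (Fin 3 → ℝ) × ℝ) :
    cube c = Set.pi Set.univ (fun t => Set.Icc (c.1 t) (c.1 t + c.2)) := by
  ext x; simp only [cube, Set.mem_pi, Set.mem_univ, Set.mem_Icc, Set.mem_ofPred_eq, true_imp_iff]

lemma closure_H (c : (Fin 3 → ℝ) × ℝ) (h : 0 < c.2) : closure (H c) = cube c := by
  rw [H_pi, cube_pi, closure_pi_set]
  congr 1
  funext t
  exact closure_Ico (by linarith)

lemma interior_cube (c : (Fin 3 → ℝ) × ℝ) : interior (cube c) ⊆ H c := by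
  rw [H_pi, cube_pi, interior_pi_set Set.finite_univ]
  refine Set.pi_mono (fun t _ => ?_)
  rw [interior_Icc]
  exact Set.Ioo_subset_Ico_self

lemma tiling_of_part {T : Finset ((Fin 3 → ℝ) × ℝ)} (h : Part T (H (0, 1))) : IsTiling T := by
  refine ⟨h.1, fun c hc c' hc' hne =>
    Set.disjoint_of_subset (interior_cube c) (interior_cube c') (h.2.1 c hc c' hc' hne), ?_⟩
  have e : H (0, 1) = ⋃ c ∈ T, H c := by
    ext x
    rw [h.2.2]
    simp
  have e2 : closure (H (0, 1)) = {x | ∀ t, 0 ≤ x t ∧ x t ≤ 1} := by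
    rw [closure_H _ one_pos]
    ext x; simp [cube]
  rw [← e2, e, Finset.closure_biUnion]
  exact Set.iUnion₂_congr (fun c hc => (closure_H c (h.1 c hc)).symm)

/-- grid of k^3 cubes of side s with corner p -/
noncomputable def grid (p : Fin 3 → ℝ) (s : ℝ) (k : ℕ) : Finset ((Fin 3 → ℝ) × ℝ) :=
  (Fintype.piFinset (fun _ : Fin 3 => Finset.range k)).image
    (fun v => (fun t => p t + s * (v t : ℝ), s))

lemma mem_grid {p : Fin 3 → ℝ} {s : ℝ} {k : ℕ} {c : (Fin 3 → ℝ) × ℝ} :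
    c ∈ grid p s k ↔ ∃ v : Fin 3 → ℕ, (∀ t, v t < k) ∧ (fun t => p t + s * (v t : ℝ), s) = c := by
  simp [grid]

lemma card_grid (p : Fin 3 → ℝ) {s : ℝ} (hs : 0 < s) (k : ℕ) : (grid p s k).card = k ^ 3 := by
  rw [grid, Finset.card_image_of_injective]
  · simp
  · intro v w h
    funext t
    have := congrFun (congrArg Prod.fst h) t
    simp only [add_right_inj] at this
    exact_mod_cast mul_left_cancel₀ hs.ne' this

lemma part_grid (p : Fin 3 → ℝ) {s : ℝ} (hs : 0 < s) (k : ℕ) :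
    Part (grid p s k) (H (p, s * k)) := by
  refine ⟨?_, ?_, fun x => ⟨fun hx => ?_, ?_⟩⟩
  · intro c hc
    obtain ⟨v, -, rfl⟩ := mem_grid.1 hc
    exact hs
  · intro c hc c' hc' hne
    obtain ⟨v, -, rfl⟩ := mem_grid.1 hc
    obtain ⟨w, -, rfl⟩ := mem_grid.1 hc'
    rw [Set.disjoint_left]
    intro x h1 h2
    apply hne
    have : v = w := by
      funext t
      have a1 := h1 t
      have a2 := h2 t
      simp only at a1 a2
      have b1 : (v t : ℝ) < w t + 1 := by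
        apply lt_of_mul_lt_mul_left _ hs.le
        linarith [a1.1, a2.2]
      have b2 : (w t : ℝ) < v t + 1 := by
        apply lt_of_mul_lt_mul_left _ hs.le
        linarith [a2.1, a1.2]
      have c1 : v t < w t + 1 := by exact_mod_cast b1
      have c2 : w t < v t + 1 := by exact_mod_cast b2
      omega
    rw [this]
  · have h0 : ∀ t, 0 ≤ (x t - p t) / s := fun t => div_nonneg (by linarith [(hx t).1]) hs.le
    refine ⟨_, mem_grid.2 ⟨fun t => ⌊(x t - p t) / s⌋₊, fun t => ?_, rfl⟩, fun t => ?_⟩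
    · rw [Nat.floor_lt (h0 t), div_lt_iff₀ hs]
      have := (hx t).2
      simp only at this
      linarith
    · have a1 := Nat.floor_le (h0 t)
      have a2 := Nat.lt_floor_add_one ((x t - p t) / s)
      rw [le_div_iff₀ hs] at a1
      rw [div_lt_iff₀ hs] at a2
      constructor <;> simp only <;> linarith
  · rintro ⟨c, hc, hx⟩ t
    obtain ⟨v, hv, rfl⟩ := mem_grid.1 hc
    have a := hx t
    have b : ((v t : ℝ) + 1) ≤ k := by exact_mod_cast hv t
    have b0 : (0 : ℝ) ≤ v t := Nat.cast_nonneg _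
    simp only at a ⊢
    constructor <;> nlinarith [a.1, a.2]

lemma part_replace {T T1 T2 : Finset ((Fin 3 → ℝ) × ℝ)} {X Y : Set (Fin 3 → ℝ)} (h : Part T X)
    (hs : T1 ⊆ T) (h1 : Part T1 Y) (h2 : Part T2 Y) :
    Part ((T \ T1) ∪ T2) X ∧ ((T \ T1) ∪ T2).card + T1.card = T.card + T2.card := by
  have key : ∀ c ∈ T \ T1, ∀ c' ∈ T2, Disjoint (H c) (H c') := by
    intro c hc c' hc'
    rw [Set.disjoint_left]
    intro x a1 a2
    obtain ⟨c1, b1, b2⟩ := (h1.2.2 x).1 ((h2.2.2 x).2 ⟨c', hc', a2⟩)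
    obtain ⟨d1, d2⟩ := Finset.mem_sdiff.1 hc
    exact Set.disjoint_left.1 (h.2.1 c d1 c1 (hs b1) (fun e => d2 (e ▸ b1))) a1 b2
  refine ⟨⟨?_, ?_, fun x => ⟨fun hx => ?_, ?_⟩⟩, ?_⟩
  · intro c hc
    rcases Finset.mem_union.1 hc with a | a
    · exact h.1 c (Finset.mem_sdiff.1 a).1
    · exact h2.1 c a
  · intro c hc c' hc' hne
    rcases Finset.mem_union.1 hc with a | a <;> rcases Finset.mem_union.1 hc' with b | b
    · exact h.2.1 c (Finset.mem_sdiff.1 a).1 c' (Finset.mem_sdiff.1 b).1 hne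
    · exact key c a c' b
    · exact (key c' b c a).symm
    · exact h2.2.1 c a c' b hne
  · obtain ⟨c, hc, a⟩ := (h.2.2 x).1 hx
    by_cases e : c ∈ T1
    · obtain ⟨c', b1, b2⟩ := (h2.2.2 x).1 ((h1.2.2 x).2 ⟨c, e, a⟩)
      exact ⟨c', Finset.mem_union_right _ b1, b2⟩
    · exact ⟨c, Finset.mem_union_left _ (Finset.mem_sdiff.2 ⟨hc, e⟩), a⟩
  · rintro ⟨c, hc, a⟩
    rcases Finset.mem_union.1 hc with b | b
    · exact (h.2.2 x).2 ⟨c, (Finset.mem_sdiff.1 b).1, a⟩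
    · obtain ⟨c', b1, b2⟩ := (h1.2.2 x).1 ((h2.2.2 x).2 ⟨c, b, a⟩)
      exact (h.2.2 x).2 ⟨c', hs b1, b2⟩
  · have hd : Disjoint (T \ T1) T2 := by
      rw [Finset.disjoint_left]
      intro c a b
      have := key c a c b
      rw [disjoint_self] at this
      have hc : c.1 ∈ H c := fun t => ⟨le_rfl, by linarith [h2.1 c b]⟩
      rw [this] at hc
      exact hc
    rw [Finset.card_union_of_disjoint hd]
    have := Finset.card_sdiff_add_card_eq_card hs
    omega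

lemma blocks (m b g : ℕ) (hb : 0 < b) (hg : g * (b + 1) ≤ m) {e : ℝ} (he : 0 < e)
    (σ : (Fin 3 → ℕ) → ℕ) (hσ : ∀ u, 0 < σ u ∧ σ u ≤ b + 1) (W : Finset (Fin 3 → ℕ)) :
    (∀ u ∈ W, ∀ t, u t < g) → ∃ T, Part T (H (0, e * m)) ∧
      (∀ c ∈ T, c.2 = e ∨ ∃ u, c.2 = e * σ u / b) ∧
      T.card + ∑ u ∈ W, σ u ^ 3 = m ^ 3 + W.card * b ^ 3 ∧
      ∀ u, u ∉ W → (∀ t, u t < g) → grid (fun t => e * ((b + 1) * u t : ℕ)) e (b + 1) ⊆ T := by
  induction W using Finset.induction_on with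
  | empty =>
    intro _
    refine ⟨grid 0 e m, part_grid 0 he m, ?_, by simp [card_grid _ he], ?_⟩
    · intro c hc
      obtain ⟨v, -, rfl⟩ := mem_grid.1 hc
      exact Or.inl rfl
    · intro u _ hu c hc
      obtain ⟨v, hv, rfl⟩ := mem_grid.1 hc
      refine mem_grid.2 ⟨fun t => (b + 1) * u t + v t, fun t => ?_, ?_⟩
      · have h1 : (b + 1) * (u t + 1) ≤ (b + 1) * g := Nat.mul_le_mul_left _ (hu t)
        have h2 := hv t
        nlinarith
      · refine Prod.ext (funext fun t => ?_) rfl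
        simp only [Pi.zero_apply]
        push_cast
        ring
  | insert u0 W hu0 ih =>
    intro hW
    obtain ⟨T, h1, h2, h3, h4⟩ := ih (fun u hu => hW u (Finset.mem_insert_of_mem hu))
    have hb' : (0 : ℝ) < b := by exact_mod_cast hb
    have hs' : (0 : ℝ) < σ u0 := by exact_mod_cast (hσ u0).1
    have hpos : 0 < e * σ u0 / b := by positivity
    set p : Fin 3 → ℝ := fun t => e * ((b + 1) * u0 t : ℕ) with hp
    have hsub : grid p e (σ u0) ⊆ T := by
      refine Finset.Subset.trans ?_ (h4 u0 hu0 (hW u0 (Finset.mem_insert_self _ _)))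
      intro c hc
      obtain ⟨v, hv, rfl⟩ := mem_grid.1 hc
      exact mem_grid.2 ⟨v, fun t => (hv t).trans_le (hσ u0).2, rfl⟩
    have p2 := part_grid p hpos b
    rw [div_mul_cancel₀ _ hb'.ne'] at p2
    obtain ⟨k1, k2⟩ := part_replace h1 hsub (part_grid p he (σ u0)) p2
    refine ⟨_, k1, ?_, ?_, ?_⟩
    · intro c hc
      rcases Finset.mem_union.1 hc with a | a
      · exact h2 c (Finset.mem_sdiff.1 a).1
      · obtain ⟨v, -, rfl⟩ := mem_grid.1 a
        exact Or.inr ⟨u0, rfl⟩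
    · rw [card_grid _ he, card_grid _ hpos] at k2
      rw [Finset.sum_insert hu0, Finset.card_insert_of_notMem hu0, add_mul, one_mul]
      omega
    · intro u hu hug c hc
      simp only [Finset.mem_insert, not_or] at hu
      refine Finset.mem_union_left _ (Finset.mem_sdiff.2 ⟨h4 u hu.2 hug hc, fun hc' => hu.1 ?_⟩)
      obtain ⟨v, hv, rfl⟩ := mem_grid.1 hc
      obtain ⟨w, hw, e2⟩ := mem_grid.1 hc'
      funext t
      have a := congrFun (congrArg Prod.fst e2) t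
      simp only [hp, ← mul_add] at a
      have a2 : (b + 1) * u0 t + w t = (b + 1) * u t + v t := by
        exact_mod_cast mul_left_cancel₀ he.ne' a
      have a3 := hv t
      have a4 := (hw t).trans_le (hσ u0).2
      have a5 := congrArg (· / (b + 1)) a2
      simp only [Nat.mul_add_div (Nat.succ_pos b), Nat.div_eq_of_lt a3, Nat.div_eq_of_lt a4] at a5
      omega

lemma arith (a r : ℕ) : ∃ i j : ℕ, j < 3 * a ^ 2 + 3 * a + 1 ∧
    i * (3 * a ^ 2 + 3 * a + 1) = r + j * (3 * a ^ 2 + 9 * a + 7) := by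
  have hco : Nat.Coprime (3 * a ^ 2 + 9 * a + 7) (3 * a ^ 2 + 3 * a + 1) := by
    rw [Nat.coprime_iff_isRelPrime, ← Nat.coprime_iff_isRelPrime, ← Nat.isCoprime_iff_coprime]
    have h1 : IsCoprime ((a : ℤ) + 1) (3 * a ^ 2 + 3 * a + 1) := ⟨-3 * a, 1, by ring⟩
    have h2 : IsCoprime (3 : ℤ) (3 * a ^ 2 + 3 * a + 1) := ⟨-(a ^ 2 + a), 1, by ring⟩
    have h3 : IsCoprime (2 : ℤ) (3 * a ^ 2 + 3 * a + 1) := by
      obtain ⟨k, hk⟩ := Int.even_mul_succ_self (a : ℤ)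
      exact ⟨-3 * k, 1, by linear_combination 3 * hk⟩
    have h4 := ((h3.mul_left h2).mul_left h1).add_mul_left_left 1
    push_cast
    have e : (3 * (a : ℤ) ^ 2 + 9 * a + 7) = 2 * 3 * (a + 1) + (3 * a ^ 2 + 3 * a + 1) * 1 := by ring
    rw [e]
    exact h4
  set D := 3 * a ^ 2 + 3 * a + 1 with hD
  have hD0 : 0 < D := by positivity
  obtain ⟨j, hj1, hj2⟩ := Nat.exists_mul_mod_eq_of_coprime (D - r % D) hco hD0.ne'
  have hdvd : D ∣ r + j * (3 * a ^ 2 + 9 * a + 7) := by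
    apply Nat.dvd_of_mod_eq_zero
    rw [Nat.add_mod, mul_comm j, hj2, Nat.add_mod_mod, Nat.add_sub_cancel' (Nat.mod_lt r hD0).le,
      Nat.mod_self]
  obtain ⟨i, hi⟩ := hdvd
  exact ⟨i, j, hj1, by rw [hi, mul_comm]⟩

lemma main (n m a : ℕ) (ha : 20 ≤ a) (h1 : m ^ 3 ≤ n) (h2 : n < (m + 1) ^ 3) (h3 : (a + 1) ^ 2 ≤ m)
    (h4 : m < (a + 2) ^ 2) : ∃ T, IsTiling T ∧ T.card = n ∧ ∃ e : ℝ, 0 < e ∧
      ∀ c ∈ T, c.2 = e * a ∨ c.2 = e * (a + 1) ∨ c.2 = e * (a + 2) := by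
  obtain ⟨r, rfl⟩ := Nat.exists_eq_add_of_le h1
  obtain ⟨i, j, hj, hi⟩ := arith a r
  have hr : r ≤ 3 * (a + 2) ^ 4 := by
    have : r ≤ 3 * (m + 1) ^ 2 := by nlinarith
    have h5 : (m + 1) ^ 2 ≤ ((a + 2) ^ 2) ^ 2 := Nat.pow_le_pow_left h4 2
    nlinarith
  have hi2 : i ≤ 6 * a ^ 2 := by
    by_contra hlt
    have b1 : 6 * a ^ 2 * (3 * a ^ 2 + 3 * a + 1) ≤ i * (3 * a ^ 2 + 3 * a + 1) :=
      Nat.mul_le_mul_right _ (by omega)
    have b2 : j * (3 * a ^ 2 + 9 * a + 7) ≤ (3 * a ^ 2 + 3 * a + 1) * (3 * a ^ 2 + 9 * a + 7) :=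
      Nat.mul_le_mul_right _ hj.le
    obtain ⟨d, rfl⟩ := Nat.exists_eq_add_of_le ha
    rw [hi] at b1
    have b3 := b1.trans (Nat.add_le_add hr b2)
    ring_nf at b3
    omega
  have hij : i + j ≤ (Fintype.piFinset (fun _ : Fin 3 => Finset.range a)).card := by
    have : (Fintype.piFinset (fun _ : Fin 3 => Finset.range a)).card = a ^ 3 := by simp
    rw [this]
    nlinarith
  obtain ⟨W, hW1, hW2⟩ := Finset.exists_subset_card_eq hij
  obtain ⟨W1, hW3, hW4⟩ := Finset.exists_subset_card_eq (show i ≤ W.card by omega)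
  have hm : (0 : ℝ) < m := by
    have : 0 < m := by nlinarith
    exact_mod_cast this
  obtain ⟨T, t1, t2, t3, -⟩ := blocks m (a + 1) a (by omega) (by nlinarith) (e := (m : ℝ)⁻¹)
    (inv_pos.2 hm) (fun u => if u ∈ W1 then a else a + 2)
    (fun u => by split_ifs <;> omega) W (fun u hu t => by
      have := Fintype.mem_piFinset.1 (hW1 hu) t
      simpa using this)
  rw [inv_mul_cancel₀ hm.ne'] at t1
  have ha1 : (0 : ℝ) < (a : ℝ) + 1 := by positivity
  refine ⟨T, tiling_of_part t1, ?_, (m : ℝ)⁻¹ / (a + 1), by positivity, fun c hc => ?_⟩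
  · rw [← Finset.sum_sdiff hW3, Finset.sum_congr rfl (g := fun _ => (a + 2) ^ 3)
      (fun u hu => by simp [(Finset.mem_sdiff.1 hu).2]),
      Finset.sum_congr rfl (s₁ := W1) (g := fun _ => a ^ 3) (fun u hu => by simp [hu])] at t3
    simp only [Finset.sum_const, smul_eq_mul, Finset.card_sdiff_of_subset hW3, hW2, hW4,
      Nat.add_sub_cancel_left] at t3
    nlinarith
  · rcases t2 c hc with h | ⟨u, h⟩
    · right; left
      rw [h]; field_simp
    · by_cases e : u ∈ W1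
      · left
        rw [h]; simp only [e, if_true]; push_cast; ring
      · right; right
        rw [h]; simp only [e, if_false]; push_cast; ring

theorem result : ∃ (ρ : ℕ → ℝ) (n₀ : ℕ), Tendsto ρ atTop (𝓝 1) ∧ ∀ n, n₀ ≤ n →
    ∃ T : Finset ((Fin 3 → ℝ) × ℝ), IsTiling T ∧ T.card = n ∧ (T.image Prod.snd).card ≤ 3 ∧
      ∀ c ∈ T, ∀ c' ∈ T, c.2 / c'.2 ≤ ρ n := by
  have hm : ∀ n : ℕ, ∃ m : ℕ, m ^ 3 ≤ n ∧ n < (m + 1) ^ 3 := fun n =>
    ⟨Nat.nthRoot 3 n, Nat.pow_nthRoot_le (Or.inl (by norm_num)), Nat.lt_pow_nthRoot_add_one (by norm_num) n⟩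
  choose m hm1 hm2 using hm
  have hbig : ∀ K n : ℕ, ((K + 1) ^ 2) ^ 3 ≤ n → K ≤ (m n).sqrt - 1 := by
    intro K n h
    have h1 : (K + 1) ^ 2 < m n + 1 := lt_of_pow_lt_pow_left₀ 3 (Nat.zero_le _) (h.trans_lt (hm2 n))
    have h2 : K + 1 ≤ (m n).sqrt := Nat.le_sqrt'.2 (by omega)
    omega
  refine ⟨fun n => 1 + 2 / (((m n).sqrt - 1 : ℕ) : ℝ), ((20 + 1) ^ 2) ^ 3, ?_, fun n hn => ?_⟩
  · have h1 : Tendsto (fun n => (m n).sqrt - 1) atTop atTop :=
      tendsto_atTop_atTop.2 (fun K => ⟨_, hbig K⟩)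
    have h2 := (tendsto_const_div_atTop_nhds_zero_nat (2 : ℝ)).comp h1
    simpa using h2.const_add 1
  · have ha := hbig 20 n hn
    obtain ⟨a, hae⟩ : ∃ a, (m n).sqrt - 1 = a := ⟨_, rfl⟩
    have e1 : (m n).sqrt = a + 1 := by omega
    beta_reduce
    rw [hae] at ha ⊢
    obtain ⟨T, t1, t2, e, he, t3⟩ := main n (m n) a ha (hm1 n) (hm2 n)
      (by rw [← e1]; exact Nat.sqrt_le' _) (by
        have := Nat.lt_succ_sqrt' (m n)
        rw [e1] at this
        exact this)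
    refine ⟨T, t1, t2, ?_, fun c hc c' hc' => ?_⟩
    · have : T.image Prod.snd ⊆ {e * a, e * (a + 1), e * (a + 2)} := by
        intro s hs
        obtain ⟨c, hc, rfl⟩ := Finset.mem_image.1 hs
        simpa using t3 c hc
      exact (Finset.card_le_card this).trans Finset.card_le_three
    · have ha0 : (0 : ℝ) < a := by
        have : 0 < a := by omega
        exact_mod_cast this
      have b1 : c.2 ≤ e * (a + 2) := by rcases t3 c hc with h | h | h <;> rw [h] <;> nlinarith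
      have b2 : e * a ≤ c'.2 := by rcases t3 c' hc' with h | h | h <;> rw [h] <;> nlinarith
      have b3 : 1 + 2 / (a : ℝ) = e * (a + 2) / (e * a) := by field_simp
      rw [b3]
      exact div_le_div₀ (by positivity) b1 (by positivity) b2

end Pool.Agent.Results.MP_695dce_co.Three
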